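import Pool.Agent.Q51.OP.Fin
import Pool.Agent.Q51.OP.Neg

/-!
# MP_1e9cc8_nt: the intervals of Oppermann in Cramér's random model with independence of order 4 and 2

In Cramér's model the primes are replaced by a random set `A` of integers `n ≥ 3` with `P(n ∈ A) = 1 / log n`, the events
`n ∈ A` being independent. The conjecture (at least `k` primes in `[n² - n, n²]` and in `[n², n² + n]` for all large `n`) is
almost surely true for `A` if only any four of these events are independent, (1), (2), and then the numbers of the elements of
`A` in these intervals are almost surely at least `(1 - δ) n / (2 log n)`, the conjectured number. It may be false if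
only any two of the events are independent: (3) gives a random set of this kind which almost surely contains no element of the
whole interval `[n², (n + 1)²)` for infinitely many `n`.

The proof of (1): cut the interval into `M` blocks; by the fourth order independence the product of the squares of the
centered numbers of the elements in two blocks has a small mean, so that almost surely, for all large `n`, at most one
block contains too few elements. In (3) a random linear polynomial over a field with about `2 n` to `4 n` elements is chosen for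
every `n`, and an integer of `[n², (n + 1)²)` can only belong to `A` if the value of the polynomial at its position is in a fixed
set with about half of the elements of the field; constant polynomials with another value have probability at least `1 / (18 n)`.
-/

namespace Pool.Agent.Results.MP_1e9cc8_nt.LimitedIndependence

open MeasureTheory Filter Pool.Agent.Q51.LI

/-- **The intervals of Oppermann in Cramér's random model with limited independence.** -/
theorem result :
    -- any four of the events are independent
    (∀ (Ω : Type) (_ : MeasurableSpace Ω) (P : Measure Ω), IsProbabilityMeasure P → ∀ E : ℕ → Set Ω,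
      (∀ X, IsRandomSet P 4 X E) →
        -- (1) the conjectured number, as a lower bound
        (∀ᵐ ω ∂P, ∀ δ : ℝ, 0 < δ → ∀ᶠ n : ℕ in atTop,
          (1 - δ) * (n / (2 * Real.log n)) ≤ ({m : ℕ | n ^ 2 - n ≤ m ∧ m ≤ n ^ 2 ∧ ω ∈ E m}.ncard : ℝ) ∧
          (1 - δ) * (n / (2 * Real.log n)) ≤ ({m : ℕ | n ^ 2 ≤ m ∧ m ≤ n ^ 2 + n ∧ ω ∈ E m}.ncard : ℝ)) ∧
        -- (2) the statement of the conjecture
        ∀ᵐ ω ∂P, ∀ k : ℕ, ∀ᶠ n : ℕ in atTop,
          k ≤ {m : ℕ | n ^ 2 - n ≤ m ∧ m ≤ n ^ 2 ∧ ω ∈ E m}.ncard ∧
          k ≤ {m : ℕ | n ^ 2 ≤ m ∧ m ≤ n ^ 2 + n ∧ ω ∈ E m}.ncard) ∧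
    -- (3) pairwise independence does not suffice
    ∃ (Ω : Type) (_ : MeasurableSpace Ω) (P : Measure Ω) (E : ℕ → Set Ω), IsProbabilityMeasure P ∧
      (∀ X, IsRandomSet P 2 X E) ∧
      ∀ᵐ ω ∂P, ∀ N : ℕ, ∃ n : ℕ, N ≤ n ∧ ∀ m : ℕ, n ^ 2 ≤ m → m < (n + 1) ^ 2 → ω ∉ E m :=
  ⟨fun _ _ _ _ _ hE => ⟨Pool.Agent.Q51.OP.ae_lower hE, Pool.Agent.Q51.OP.ae_k hE⟩, Pool.Agent.Q51.OP.pairwise_fails⟩

end Pool.Agent.Results.MP_1e9cc8_nt.LimitedIndependence
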