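import Pool.Agent.Q48.RD.Lin

/-!
# `k` almost primes in both Oppermann intervals, at symmetric positions with restricted digits

Let `k ≥ 1` and let `M = (2 k)!`. For every large `n` we consider the `2 k` numbers `n ^ 2 + m + i M`, `n ^ 2 - m - i M` with `i < k`,
where `m ≥ 1` and `m + k M ≤ n`: the first `k` are in the interval `[n ^ 2, n ^ 2 + n]`, and the other `k` numbers are in the interval
`[n ^ 2 - n, n ^ 2]`.

Let `g ≥ 2` be a base and `K` a large number of digits. For every `i < K` let `A i` be an arbitrary set of digits, such that the number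
`|A 0| ⋯ |A (K - 1)|` of the integers `t < g ^ K` whose `i`-th digit belongs to `A i` for all `i < K` is at least `exp (- c K) g ^ K`
(`Rich`). Let `n ≤ g ^ (E K)` and `m₀ ≥ 1` be arbitrary with `m₀ + g ^ K + k M ≤ n`, so that the length `g ^ K` of the interval of the
`m = m₀ + t` may be an arbitrarily small power of `n`.

The number of the `m = m₀ + t` with these `t` for which all `2 k` numbers have at most `r` prime factors, all larger than `g ^ (K / r)`,
is at least `κ V |A 0| ⋯ |A (K - 1)|`, and also at least `κ |A 0| ⋯ |A (K - 1)| / K ^ (2 k)`, unless there is an obvious obstruction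
(no digit `d` in `A 0` such that the `2 k` numbers for `m₀ + d` are prime to `g`); the number of the `m = m₀ + t` with these `t` for which
all `2 k` numbers are primes is at most `C V |A 0| ⋯ |A (K - 1)|`. Here `V` is the product of `1 - ν (p) / p` over the primes
`p ≤ g ^ K`, where `ν (p)` is the number of the `m` modulo `p` such that `p` divides one of the `2 k` numbers, the expected order. The
constants do not depend on `n`, `m₀` and the sets `A i`.
-/

set_option autoImplicit false

namespace Pool.Agent.Results.MP_1e9cc8_nt.SymmetricAlmostPrimes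

open Filter Finset
open Pool.Agent.Q315.RD Pool.Agent.Q48.RD

/-- `n ^ 2 + m + i M` with `M = (2 k)!`. -/
def above (k n m i : ℕ) : ℕ := n ^ 2 + (m + i * (2 * k).factorial)

/-- `n ^ 2 - m - i M` with `M = (2 k)!`. -/
def below (k n m i : ℕ) : ℕ := n ^ 2 - (m + i * (2 * k).factorial)

/-- the leading coefficients -/
def α (k : ℕ) : Fin (k + k) → ℤ := Fin.append (fun _ => 1) (fun _ => -1)

/-- the constant terms -/
def β (k n : ℕ) : Fin (k + k) → ℤ :=
  Fin.append (fun i => ((n ^ 2 + (i : ℕ) * (2 * k).factorial : ℕ) : ℤ)) (fun i => ((n : ℤ) ^ 2 - ((i : ℕ) * (2 * k).factorial : ℕ)))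

/-- The product of `1 - ν (p) / p` over the primes `p ≤ y`, `ν (p)` the number of the zeros of the product of the `2 k` polynomials
`n ^ 2 + i M + X`, `n ^ 2 - i M - X` modulo `p`. -/
noncomputable def V (k n y : ℕ) : ℝ := linDensity (α k) (β k n) y

lemma adm (k n : ℕ) : AdmZ (α k) (β k n) := by
  intro p hp
  have hpz := Nat.prime_iff_prime_int.1 hp
  rcases Nat.lt_or_ge (k + k) p with h | h
  · refine adm_bigZ _ _ hp h fun j => ?_
    have h1 : ¬ (p : ℤ) ∣ 1 := fun h1 => by
      have h2 : (p : ℤ) ∣ ((1 : ℕ) : ℤ) := by exact_mod_cast h1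
      exact hp.one_lt.ne' (Nat.dvd_one.1 (Int.natCast_dvd_natCast.1 h2))
    unfold α
    refine Fin.addCases (fun i => ?_) (fun i => ?_) j
    · rw [Fin.append_left]; exact h1
    · rw [Fin.append_right, dvd_neg]; exact h1
  · have hM : p ∣ (2 * k).factorial := (Nat.Prime.dvd_factorial hp).2 (by omega)
    have key : ∃ m : ℤ, ¬ (p : ℤ) ∣ (n : ℤ) ^ 2 + m ∧ ¬ (p : ℤ) ∣ (n : ℤ) ^ 2 - m := by
      rcases hp.eq_two_or_odd' with h2 | h2
      · subst h2
        refine ⟨n + 1, ?_, ?_⟩
        · intro h3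
          have h4 : Even ((n : ℤ) ^ 2 + (n + 1)) := even_iff_two_dvd.2 (by exact_mod_cast h3)
          rcases Int.even_or_odd' (n : ℤ) with ⟨u, hu | hu⟩
          · rw [hu] at h4
            exact (Int.not_even_iff_odd.2 ⟨2 * u ^ 2 + u, by ring⟩) h4
          · rw [hu] at h4
            exact (Int.not_even_iff_odd.2 ⟨2 * u ^ 2 + 3 * u + 1, by ring⟩) h4
        · intro h3
          have h4 : Even ((n : ℤ) ^ 2 - (n + 1)) := even_iff_two_dvd.2 (by exact_mod_cast h3)
          rcases Int.even_or_odd' (n : ℤ) with ⟨u, hu | hu⟩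
          · rw [hu] at h4
            exact (Int.not_even_iff_odd.2 ⟨2 * u ^ 2 - u - 1, by ring⟩) h4
          · rw [hu] at h4
            exact (Int.not_even_iff_odd.2 ⟨2 * u ^ 2 + u - 1, by ring⟩) h4
      · obtain ⟨t, ht⟩ := Pool.Agent.Y816.PD.adm_two hp (by have := hp.two_le; obtain ⟨w, hw⟩ := h2; omega)
          ((n : ℤ) ^ 2) ((n : ℤ) ^ 2)
        exact ⟨t, fun h3 => ht (h3.mul_right _), fun h3 => ht (h3.mul_left _)⟩
    obtain ⟨m, h1, h2⟩ := key
    refine ⟨m, fun j => ?_⟩
    unfold α β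
    refine Fin.addCases (fun i => ?_) (fun i => ?_) j
    · rw [Fin.append_left, Fin.append_left]
      intro h3
      apply h1
      have h4 : (p : ℤ) ∣ (((i : ℕ) * (2 * k).factorial : ℕ) : ℤ) := Int.natCast_dvd_natCast.2 (hM.mul_left _)
      have h5 := dvd_sub h3 h4
      push_cast at h5
      ring_nf at h5 ⊢
      exact h5
    · rw [Fin.append_right, Fin.append_right]
      intro h3
      apply h2
      have h4 : (p : ℤ) ∣ (((i : ℕ) * (2 * k).factorial : ℕ) : ℤ) := Int.natCast_dvd_natCast.2 (hM.mul_left _)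
      have h5 := dvd_add h3 h4
      push_cast at h5
      ring_nf at h5 ⊢
      exact h5

/-- **`k` almost primes in both Oppermann intervals, at symmetric positions with restricted digits.** -/
theorem result (k E : ℕ) :
    ∃ c : ℝ, 0 < c ∧ ∃ r₀ : ℕ, 2 ≤ r₀ ∧ ∀ r : ℕ, r₀ ≤ r → ∀ g : ℕ, 2 ≤ g → ∃ κ C : ℝ, 0 < κ ∧ 0 < C ∧
      ∀ᶠ K : ℕ in atTop, ∀ n m₀ : ℕ, n ≤ g ^ (E * K) → 1 ≤ m₀ → m₀ + g ^ K + k * (2 * k).factorial ≤ n →
        ∀ A : ℕ → Finset ℕ, Rich c g K A →
          ((∃ d ∈ A 0, ∀ i < k, (above k n (m₀ + d) i).Coprime g ∧ (below k n (m₀ + d) i).Coprime g) →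
            κ * V k n (g ^ K) * choices K A ≤ count g K A (fun t => ∀ i < k,
              AlmostPrime (g ^ K) r (above k n (m₀ + t) i) ∧ AlmostPrime (g ^ K) r (below k n (m₀ + t) i)) ∧
            κ * choices K A / (K : ℝ) ^ (2 * k) ≤ count g K A (fun t => ∀ i < k,
              AlmostPrime (g ^ K) r (above k n (m₀ + t) i) ∧ AlmostPrime (g ^ K) r (below k n (m₀ + t) i))) ∧
          (count g K A (fun t => ∀ i < k, (above k n (m₀ + t) i).Prime ∧ (below k n (m₀ + t) i).Prime) : ℝ) ≤
            C * V k n (g ^ K) * choices K A := by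
  obtain ⟨c, hc, r₀, hr₀, h⟩ := famLin' (k + k) (2 * E + 1)
  refine ⟨c, hc, r₀, hr₀, fun r hr g hg => ?_⟩
  obtain ⟨κ, C, hκ, hC, h1⟩ := h r hr g hg
  refine ⟨κ, C, hκ, hC, ?_⟩
  filter_upwards [h1, eventually_ge_atTop 1] with K hK hK1
  intro n m₀ hn hm₀ hmn A hA
  have hg1 : 1 ≤ g := by omega
  obtain ⟨f, hf⟩ : ∃ f : Fin (k + k) → ℕ → ℕ, f = Fin.append (fun (i : Fin k) t => above k n (m₀ + t) i)
    (fun (i : Fin k) t => below k n (m₀ + t) i) := ⟨_, rfl⟩
  have hfl : ∀ (i : Fin k) t, f (Fin.castAdd k i) t = above k n (m₀ + t) i := fun i t => by rw [hf, Fin.append_left]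
  have hfr : ∀ (i : Fin k) t, f (Fin.natAdd k i) t = below k n (m₀ + t) i := fun i t => by rw [hf, Fin.append_right]
  have hi : ∀ i : Fin k, (i : ℕ) * (2 * k).factorial ≤ k * (2 * k).factorial := fun i => Nat.mul_le_mul_right _ i.2.le
  have hnn : n ≤ n ^ 2 := Nat.le_self_pow (by norm_num) n
  have hconv : ∀ (Q : ℕ → Prop) (t : ℕ), (∀ j, Q (f j t)) ↔ ∀ i < k, Q (above k n (m₀ + t) i) ∧ Q (below k n (m₀ + t) i) := by
    intro Q t
    constructor
    · intro hQ i hik
      have h2 := hQ (Fin.castAdd k ⟨i, hik⟩)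
      have h3 := hQ (Fin.natAdd k ⟨i, hik⟩)
      rw [hfl] at h2
      rw [hfr] at h3
      exact ⟨h2, h3⟩
    · intro hQ j
      refine Fin.addCases (fun i => ?_) (fun i => ?_) j
      · rw [hfl]; exact (hQ i i.2).1
      · rw [hfr]; exact (hQ i i.2).2
  have hpow : (n : ℤ) ^ 2 + n ≤ (g : ℤ) ^ ((2 * E + 1) * K) := by
    have h2 : n ^ 2 + n ≤ g ^ ((2 * E + 1) * K) := by
      have h3 : 2 ≤ g ^ K := (show 2 ≤ g from hg).trans (Nat.le_self_pow (by omega) g)
      calc n ^ 2 + n ≤ 2 * n ^ 2 := by omega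
        _ ≤ g ^ K * (g ^ (E * K)) ^ 2 := Nat.mul_le_mul h3 (Nat.pow_le_pow_left hn 2)
        _ = g ^ ((2 * E + 1) * K) := by rw [← pow_mul, ← pow_add]; congr 1; ring
    exact_mod_cast h2
  obtain ⟨h2, h3⟩ := hK (α k) (β k n) m₀ f
    (fun j => by
      have h4 : (1 : ℤ) ≤ (g : ℤ) ^ ((2 * E + 1) * K) := by
        have : 1 ≤ g ^ ((2 * E + 1) * K) := Nat.one_le_pow _ _ hg1
        exact_mod_cast this
      unfold α
      refine Fin.addCases (fun i => ?_) (fun i => ?_) j
      · rw [Fin.append_left, abs_one]; exact h4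
      · rw [Fin.append_right, abs_neg, abs_one]; exact h4)
    (fun j => by
      refine le_trans ?_ hpow
      unfold β
      refine Fin.addCases (fun i => ?_) (fun i => ?_) j
      · rw [Fin.append_left, abs_of_nonneg (by positivity)]
        have h5 : n ^ 2 + (i : ℕ) * (2 * k).factorial ≤ n ^ 2 + n := by have := hi i; omega
        exact_mod_cast h5
      · rw [Fin.append_right]
        have h5 : (i : ℕ) * (2 * k).factorial ≤ n := by have := hi i; omega
        have h6 : (((i : ℕ) * (2 * k).factorial : ℕ) : ℤ) ≤ n := by exact_mod_cast h5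
        have h7 : (0 : ℤ) ≤ (((i : ℕ) * (2 * k).factorial : ℕ) : ℤ) := by positivity
        have h8 : (n : ℤ) ≤ (n : ℤ) ^ 2 := by exact_mod_cast hnn
        rw [abs_le]
        constructor <;> linarith)
    (by
      have h5 : n ≤ n ^ 2 + n := by omega
      have h6 : n ^ 2 + n ≤ g ^ ((2 * E + 1) * K) := by exact_mod_cast hpow
      omega)
    (adm k n)
    (fun t ht j => by
      unfold α β
      refine Fin.addCases (fun i => ?_) (fun i => ?_) j
      · rw [Fin.append_left, Fin.append_left, hfl]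
        unfold above
        push_cast
        ring
      · rw [Fin.append_right, Fin.append_right, hfr]
        unfold below
        have h5 : m₀ + t + (i : ℕ) * (2 * k).factorial ≤ n ^ 2 := by have := hi i; omega
        rw [Nat.cast_sub h5]
        push_cast
        ring)
    (fun t ht j => by
      refine Fin.addCases (fun i => ?_) (fun i => ?_) j
      · rw [hfl]
        unfold above
        omega
      · rw [hfr]
        unfold below
        have h5 := hi i
        have h6 : 2 * n ≤ n ^ 2 + 1 := by nlinarith [sq_nonneg ((n : ℤ) - 1)]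
        omega) A hA
  simp only [hconv] at h2 h3
  constructor
  · rintro ⟨d, hd, h4⟩
    obtain ⟨h5, h6⟩ := h2 ⟨d, hd, (hconv (fun m => m.Coprime g) d).2 h4⟩
    rw [← two_mul] at h6
    exact ⟨h5, h6⟩
  · exact h3

end Pool.Agent.Results.MP_1e9cc8_nt.SymmetricAlmostPrimes
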