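import Mathlib
import Pool.Agent.Q46.CM.Op4
import Pool.Agent.Q46.CM.Exist

/-!
# The k-fold Oppermann conjecture in Cramér's model: the exact length of the intervals

Cramér's random model: keep every integer `n ≥ 3` independently with probability `1 / log n` (this is the sieved model
of the starting files with the constant level `1`, that is, without a sieve). The question asks for `k` primes in
`[n² - n, n²]` and in `[n², n² + n]` for all large `n`, for every `k`. In the model we determine how much shorter the
intervals can be taken, and how this depends on `k`. Let `h_c(n) = ⌊2 (log n)² + c log n log log n⌋`. Almost surely: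

* if `c > 2k`, then for all large `n` there are at least `k` kept integers in `[n² - h_c(n), n²)` and at least `k` in
  `(n², n² + h_c(n)]`;
* if `c ≤ 2k`, then for infinitely many `n` there are fewer than `k` kept integers in `(n², n² + h_c(n)]`;
* in particular, for every `k` the statement of the question holds for all large `n`.

So the leading term `2 (log n)²` of the necessary length does not depend on `k` (and it is half of the length
`(log n²)² = 4 (log n)²` of the longest gaps near `n²`, since the squares are sparse), and the second term is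
`2k log n log log n`, the threshold value `c = 2k` included.

Proof: a bound of Chernoff type for the probability of fewer than `k` kept integers in a window, a lower bound by the
exact patterns with `k - 1` kept integers, and both halves of the Borel-Cantelli lemma (the windows are disjoint).
-/

set_option autoImplicit false

namespace Pool.Agent.Results.MP_1e9cc8_nt.ThresholdInCramersModel

open Filter Topology MeasureTheory ProbabilityTheory Pool.Agent.H318R2.Cr Pool.Agent.Q46.CM

universe u

/-- (0) The model exists. (1) `c > 2k`: at least `k` kept integers in `[n² - h_c(n), n²)` and in `(n², n² + h_c(n)]`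
for all large `n`. (2) `c ≤ 2k`: fewer than `k` in `(n², n² + h_c(n)]` for infinitely many `n`. (3) For every `k`, at
least `k` in `[n² - n, n²]` and in `[n², n² + n]` for all large `n`. -/
theorem result :
    (∃ (μ : Measure (ℕ → Bool)) (A : ℕ → Set (ℕ → Bool)), IsSievedModel μ (fun _ => 1) A) ∧
    (∀ (Ω : Type u) [MeasurableSpace Ω] (μ : Measure Ω) (A : ℕ → Set Ω), IsSievedModel μ (fun _ => 1) A →
      (∀ k : ℕ, 1 ≤ k → ∀ c : ℝ, 2 * (k : ℝ) < c → ∀ᵐ ω ∂μ, ∀ᶠ n : ℕ in atTop,
        k ≤ {m | n ^ 2 - hw c n ≤ m ∧ m < n ^ 2 ∧ ω ∈ A m}.ncard ∧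
        k ≤ {m | n ^ 2 < m ∧ m ≤ n ^ 2 + hw c n ∧ ω ∈ A m}.ncard) ∧
      (∀ k : ℕ, 1 ≤ k → ∀ c : ℝ, c ≤ 2 * (k : ℝ) → ∀ᵐ ω ∂μ, ∃ᶠ n : ℕ in atTop,
        {m | n ^ 2 < m ∧ m ≤ n ^ 2 + hw c n ∧ ω ∈ A m}.ncard < k) ∧
      (∀ᵐ ω ∂μ, ∀ k : ℕ, ∀ᶠ n : ℕ in atTop, k ≤ {m | n ^ 2 - n ≤ m ∧ m ≤ n ^ 2 ∧ ω ∈ A m}.ncard ∧
        k ≤ {m | n ^ 2 ≤ m ∧ m ≤ n ^ 2 + n ∧ ω ∈ A m}.ncard)) :=
  ⟨exists_model _, fun _ _ _ _ hA => ⟨fun _ hk _ hc => opp1 hA hk hc, fun _ hk _ hc => opp2 hA hk hc, opp3 hA⟩⟩

end Pool.Agent.Results.MP_1e9cc8_nt.ThresholdInCramersModel
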