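import Pool.Agent.Q25.UReg6

/-!
# `k` almost primes in both Oppermann intervals: the laws of the equally spaced mirror positions, for every `n`

Let `k ≥ 1`, `0 < η`, `0 < θ`.  For EVERY large `n` and EVERY spacing `L`, `n ^ η ≤ L ≤ n`, divisible by `(2k)!`, call
`m` good if none of the `2k` numbers `n² + (m + iL)`, `n² - (m + iL)`, `i < k`, has a prime factor `≤ n ^ (1/r)` (for
`m + kL ≤ n` these are `k` numbers in `[n², n² + n]` and `k` numbers in `[n² - n, n²]`).  In ALL intervals of length at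
least `n ^ θ` the numbers of the good `m` in windows follow the Poisson law and the gaps between the good `m` are
exponentially distributed, and almost all elements of an ARBITRARY set of good `m` (for instance of the `m` for which
all `2k` numbers are prime) are regular points of this set.
-/

set_option autoImplicit false

namespace Pool.Agent.Results.MP_1e9cc8_nt.UniformLaws

open Finset
open Pool.Agent.Q25.UReg (Good V count pois PoissonLaw GapLaw N RightOrder ConstantDensity badScales Irregular)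

/-- the coefficients of `m` in `n² + (m + iL)` (index `i < k`) and in `n² - (m + iL)` (index `k + i`) -/
def co (k : ℕ) (i : Fin (2 * k)) : ℤ := if (i : ℕ) < k then 1 else -1

/-- the constant terms: `n² + iL` (index `i < k`) and `n² - iL` (index `k + i`) -/
def ct (k n L : ℕ) (i : Fin (2 * k)) : ℤ :=
  if (i : ℕ) < k then (n : ℤ) ^ 2 + (i : ℕ) * L else (n : ℤ) ^ 2 - ((i : ℕ) - (k : ℤ)) * L

lemma co_ne (k : ℕ) (i : Fin (2 * k)) : co k i ≠ 0 := by
  unfold co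
  split_ifs <;> norm_num

lemma adm (k n L : ℕ) (hk : 1 ≤ k) (hL : (2 * k).factorial ∣ L) (p : ℕ) (hp : p.Prime) :
    ∃ m : ℤ, ∀ i, ¬ (p : ℤ) ∣ co k i * m + ct k n L i := by
  rcases lt_or_ge (2 * k) p with h2 | h2
  · apply Pool.Agent.Q25.UReg.adm_small (co k) (ct k n L) p hp h2
    have h1 : ¬ (p : ℤ) ∣ 1 := fun h => hp.one_lt.ne' (Nat.dvd_one.1 (by exact_mod_cast h))
    intro i h
    have h3 := h.1
    unfold co at h3
    split_ifs at h3
    · exact h1 h3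
    · exact h1 ((dvd_neg).1 h3)
  · -- `p ∣ L`
    have hpL : (p : ℤ) ∣ (L : ℤ) := by
      exact_mod_cast ((Nat.dvd_factorial hp.pos h2).trans hL)
    -- choose `m` with `m ≢ ± n²`
    have hm : ∃ m : ℤ, ¬ (p : ℤ) ∣ m + (n : ℤ) ^ 2 ∧ ¬ (p : ℤ) ∣ m - (n : ℤ) ^ 2 := by
      rcases hp.two_le.lt_or_eq with h3 | h3
      · obtain ⟨m, hm⟩ := Pool.Agent.Q25.UReg.adm_small (k := 2) ![1, 1] ![(n : ℤ) ^ 2, -(n : ℤ) ^ 2] p hp h3 (by
          intro i h
          have h1 : ¬ (p : ℤ) ∣ 1 := fun h => hp.one_lt.ne' (Nat.dvd_one.1 (by exact_mod_cast h))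
          fin_cases i
          · exact h1 h.1
          · exact h1 h.1)
        refine ⟨m, ?_, ?_⟩
        · have := hm 0
          simpa using this
        · have := hm 1
          simpa [sub_eq_add_neg] using this
      · subst h3
        refine ⟨(n : ℤ) ^ 2 + 1, ?_, ?_⟩
        · intro h
          have e : (n : ℤ) ^ 2 + 1 + (n : ℤ) ^ 2 = 2 * (n : ℤ) ^ 2 + 1 := by ring
          rw [e] at h
          omega
        · intro h
          have e : (n : ℤ) ^ 2 + 1 - (n : ℤ) ^ 2 = 1 := by ring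
          rw [e] at h
          omega
    obtain ⟨m, h3, h4⟩ := hm
    refine ⟨m, fun i hi => ?_⟩
    unfold co ct at hi
    split_ifs at hi with h5
    · apply h3
      have e : m + (n : ℤ) ^ 2 = (1 * m + ((n : ℤ) ^ 2 + (i : ℕ) * L)) - (i : ℕ) * L := by ring
      rw [e]
      exact dvd_sub hi (hpL.mul_left _)
    · apply h4
      have e : m - (n : ℤ) ^ 2 = -(-1 * m + ((n : ℤ) ^ 2 - ((i : ℕ) - (k : ℤ)) * L)) - ((i : ℕ) - (k : ℤ)) * L := by ring
      rw [e]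
      exact dvd_sub ((dvd_neg).2 hi) (hpL.mul_left _)

lemma two (k n L : ℕ) (hk : 1 ≤ k) (hn : 1 ≤ n) : Pool.Agent.Q25.UReg.TwoForms (co k) (ct k n L) := by
  refine ⟨⟨0, by omega⟩, ⟨k, by omega⟩, ?_, ?_⟩
  · rintro ⟨h, -⟩
    unfold co at h
    simp only [lt_irrefl, if_false] at h
    rw [if_pos (by omega)] at h
    norm_num at h
  · rintro ⟨-, h⟩
    unfold ct at h
    simp only [lt_irrefl, if_false] at h
    rw [if_pos (by omega)] at h
    have h1 : (1 : ℤ) ≤ (n : ℤ) ^ 2 := by exact_mod_cast Nat.one_le_pow _ _ hn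
    push_cast at h
    have h2 : (n : ℤ) ^ 2 + 0 * (L : ℤ) = -((n : ℤ) ^ 2 - ((k : ℤ) - (k : ℤ)) * L) := h
    have h3 : (n : ℤ) ^ 2 + 0 * (L : ℤ) = (n : ℤ) ^ 2 := by ring
    have h4 : -((n : ℤ) ^ 2 - ((k : ℤ) - (k : ℤ)) * L) = -(n : ℤ) ^ 2 := by ring
    rw [h3, h4] at h2
    omega

/-- constants of forms of the same sign differ by a multiple of `L` -/
lemma noTr (k n L : ℕ) (hn : 4 * k < n) (hL : L ≤ n) (U : ℝ) (hU : U < L) :
    Pool.Agent.Q25.UReg.NoTranslates2 (co k) (ct k n L) U := by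
  intro i j t ht htU
  have h1 : (t : ℝ) < (L : ℝ) := lt_of_le_of_lt htU hU
  have h2 : (t : ℤ) < L := by exact_mod_cast h1
  have ht' : (1 : ℤ) ≤ t := by exact_mod_cast ht
  have hL0 : (0 : ℤ) < L := by linarith
  have hLn : (L : ℤ) ≤ n := by exact_mod_cast hL
  have hn' : (4 : ℤ) * k < n := by exact_mod_cast hn
  have hi := i.isLt
  have hj := j.isLt
  -- a multiple of `L` is not `± t`
  have hmul : ∀ z : ℤ, z * L ≠ t := by
    intro z hz
    have hz0 : 0 < z := by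
      by_contra hcon
      have : z * L ≤ 0 := mul_nonpos_of_nonpos_of_nonneg (by omega) hL0.le
      omega
    have : (L : ℤ) ≤ z * L := by nlinarith
    omega
  -- sizes
  have hsq : (4 : ℤ) * k * n < (n : ℤ) ^ 2 := by nlinarith
  have hik : ((i : ℕ) : ℤ) * L ≤ 2 * k * n := by
    have h5 : ((i : ℕ) : ℤ) ≤ 2 * k := by exact_mod_cast hi.le
    have h6 : (0 : ℤ) ≤ ((i : ℕ) : ℤ) := by positivity
    have h7 : (0 : ℤ) ≤ 2 * (k : ℤ) := by positivity
    nlinarith [mul_le_mul h5 hLn hL0.le h7]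
  have hjk : ((j : ℕ) : ℤ) * L ≤ 2 * k * n := by
    have h5 : ((j : ℕ) : ℤ) ≤ 2 * k := by exact_mod_cast hj.le
    have h6 : (0 : ℤ) ≤ ((j : ℕ) : ℤ) := by positivity
    have h7 : (0 : ℤ) ≤ 2 * (k : ℤ) := by positivity
    nlinarith [mul_le_mul h5 hLn hL0.le h7]
  have hi0 : (0 : ℤ) ≤ ((i : ℕ) : ℤ) * L := by positivity
  have hj0 : (0 : ℤ) ≤ ((j : ℕ) : ℤ) * L := by positivity
  have hk0 : (0 : ℤ) ≤ (k : ℤ) * L := by positivity
  have htn : (t : ℤ) < n := by omega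
  have hn1 : (1 : ℤ) ≤ n := by omega
  have hkn0 : (0 : ℤ) ≤ (k : ℤ) * n := by positivity
  have hk1 : (1 : ℤ) ≤ k := by
    have : 1 ≤ k := by omega
    exact_mod_cast this
  have hkn : (n : ℤ) ≤ (k : ℤ) * n := by nlinarith
  unfold co ct
  split_ifs with h5 h6 h6
  · refine ⟨fun h => ?_, fun h => ?_⟩
    · apply hmul (((i : ℕ) : ℤ) - ((j : ℕ) : ℤ))
      have := h.2
      linarith [sub_mul ((i : ℕ) : ℤ) ((j : ℕ) : ℤ) (L : ℤ)]
    · have := h.1
      omega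
  · refine ⟨fun h => ?_, fun h => ?_⟩
    · have := h.1
      omega
    · have := h.2
      have e : (((j : ℕ) : ℤ) - (k : ℤ)) * L = ((j : ℕ) : ℤ) * L - (k : ℤ) * L := sub_mul _ _ _
      rw [e] at this
      linarith
  · refine ⟨fun h => ?_, fun h => ?_⟩
    · have := h.1
      omega
    · have := h.2
      have e : (((i : ℕ) : ℤ) - (k : ℤ)) * L = ((i : ℕ) : ℤ) * L - (k : ℤ) * L := sub_mul _ _ _
      rw [e] at this
      linarith
  · refine ⟨fun h => ?_, fun h => ?_⟩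
    · apply hmul (((i : ℕ) : ℤ) - ((j : ℕ) : ℤ))
      have := h.2
      have e1 : (((i : ℕ) : ℤ) - (k : ℤ)) * L = ((i : ℕ) : ℤ) * L - (k : ℤ) * L := sub_mul _ _ _
      have e2 : (((j : ℕ) : ℤ) - (k : ℤ)) * L = ((j : ℕ) : ℤ) * L - (k : ℤ) * L := sub_mul _ _ _
      rw [e1, e2] at this
      linarith [sub_mul ((i : ℕ) : ℤ) ((j : ℕ) : ℤ) (L : ℤ)]
    · have := h.1
      omega

lemma bounds (k n L : ℕ) (hn : 2 * k + 3 < n) (hL : L ≤ n) :
    (∀ i, |(co k i : ℝ)| ≤ (n : ℝ) ^ (3 : ℝ)) ∧ ∀ i, |(ct k n L i : ℝ)| ≤ (n : ℝ) ^ (3 : ℝ) := by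
  have hn3 : 3 ≤ n := by omega
  have hn' : (3 : ℝ) ≤ n := by exact_mod_cast hn3
  have e : (n : ℝ) ^ (3 : ℝ) = (n : ℝ) ^ 3 := by
    rw [show (3 : ℝ) = ((3 : ℕ) : ℝ) by norm_num, Real.rpow_natCast]
  rw [e]
  have h1 : (1 : ℝ) ≤ (n : ℝ) ^ 3 := one_le_pow₀ (by linarith)
  have hkn : (2 : ℝ) * k ≤ n := by exact_mod_cast (by omega : 2 * k ≤ n)
  have hLn : (L : ℝ) ≤ n := by exact_mod_cast hL
  have hL0 : (0 : ℝ) ≤ L := by positivity
  have hsq : (n : ℝ) ^ 2 + (n : ℝ) * n ≤ (n : ℝ) ^ 3 := by nlinarith [mul_nonneg (mul_nonneg (by linarith : (0:ℝ) ≤ n) (by linarith : (0:ℝ) ≤ n)) (by linarith : (0:ℝ) ≤ n - 3), sq_nonneg (n : ℝ)]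
  constructor
  · intro i
    unfold co
    split_ifs
    · simpa using h1
    · simpa using h1
  · intro i
    have hi : ((i : ℕ) : ℝ) ≤ 2 * k := by exact_mod_cast i.isLt.le
    have hi0 : (0 : ℝ) ≤ ((i : ℕ) : ℝ) := by positivity
    have h5 : ((i : ℕ) : ℝ) * L ≤ (n : ℝ) * n := mul_le_mul (hi.trans hkn) hLn hL0 (by linarith)
    have h6 : (0 : ℝ) ≤ ((i : ℕ) : ℝ) * L := by positivity
    have h7 : (0 : ℝ) ≤ (n : ℝ) ^ 2 := by positivity
    have hk0 : (0 : ℝ) ≤ (k : ℝ) := by positivity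
    have h8 : (k : ℝ) * L ≤ (n : ℝ) * n := mul_le_mul (by linarith) hLn hL0 (by linarith)
    have h9 : (0 : ℝ) ≤ (k : ℝ) * L := by positivity
    unfold ct
    split_ifs
    · push_cast
      rw [abs_le]
      constructor <;> linarith
    · push_cast
      rw [abs_le, sub_mul]
      constructor <;> linarith

/-- **The laws of the `2k`-tuples of almost primes at equally spaced mirror positions of the two Oppermann intervals, for
every `n`.** -/
theorem result (k : ℕ) (hk : 1 ≤ k) (η θ : ℝ) (hη : 0 < η) (hθ : 0 < θ) :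
    (∀ (l₀ : ℕ) (x₀ ε : ℝ), 0 < ε → ∃ r₀ : ℕ, ∀ r : ℕ, r₀ ≤ r → ∃ n₀ : ℕ, ∀ n : ℕ, n₀ ≤ n →
      ∀ L : ℕ, (2 * k).factorial ∣ L → (n : ℝ) ^ η ≤ L → L ≤ n → ∀ Z Y : ℕ, (n : ℝ) ^ θ ≤ Y →
        PoissonLaw (co k) (ct k n L) r n Z Y x₀ ε ∧ GapLaw (co k) (ct k n L) r n Z Y l₀ x₀ ε) ∧
    ∃ r₀ : ℕ, ∀ r : ℕ, r₀ ≤ r → ∀ ε : ℝ, 0 < ε → ∃ c : ℝ, 0 < c ∧ ∀ δ : ℝ, 0 < δ → ∃ B n₀ : ℕ,
      ∀ n : ℕ, n₀ ≤ n → ∀ L : ℕ, (2 * k).factorial ∣ L → L ≤ n →
        ∀ u Y : ℕ, (n : ℝ) ^ θ ≤ Y → Y ≤ n → Y ≤ u →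
        ∀ A : Set ℕ, (∀ m ∈ A, Good (co k) (ct k n L) r n m) →
          (N (Irregular A (V (co k) (ct k n L) r n) c δ B Y) u (u + Y) : ℝ) ≤
            ε * (Y * V (co k) (ct k n L) r n) := by
  constructor
  · intro l₀ x₀ ε hε
    obtain ⟨r₀, _, h⟩ := Pool.Agent.Q25.UReg.lin_laws2 (2 * k) 3 (η / 2) θ (by norm_num) (by linarith) hθ l₀ x₀ ε hε
    refine ⟨r₀, fun r hr => ?_⟩
    obtain ⟨n₀, hn₀⟩ := Filter.eventually_atTop.1 ((h r hr).and (Filter.eventually_ge_atTop (4 * k + 4)))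
    refine ⟨n₀, fun n hn L hdvd hηL hLn Z Y hY => ?_⟩
    obtain ⟨h1, h2⟩ := hn₀ n hn
    have hb := bounds k n L (by omega) hLn
    have hn1 : (1 : ℝ) < n := by exact_mod_cast (by omega : 1 < n)
    have hU : (n : ℝ) ^ (η / 2) < L :=
      lt_of_lt_of_le (Real.rpow_lt_rpow_of_exponent_lt hn1 (by linarith)) hηL
    exact h1 (co k) (ct k n L) (co_ne k) hb.1 hb.2 (adm k n L hk hdvd) (two k n L hk (by omega))
      (noTr k n L (by omega) hLn _ hU) Z Y hY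
  · obtain ⟨r₀, _, h⟩ := Pool.Agent.Q25.UReg.lin_reg2 (2 * k) 3 θ (by norm_num) hθ
    refine ⟨r₀, fun r hr ε hε => ?_⟩
    obtain ⟨c, hc, h1⟩ := h r hr ε hε
    refine ⟨c, hc, fun δ hδ => ?_⟩
    obtain ⟨B, hB⟩ := h1 δ hδ
    obtain ⟨n₀, hn₀⟩ := Filter.eventually_atTop.1 (hB.and (Filter.eventually_ge_atTop (4 * k + 4)))
    refine ⟨B, n₀, fun n hn L hdvd hLn u Y hXY hYX hYu A hA => ?_⟩
    obtain ⟨h1, h2⟩ := hn₀ n hn
    have hb := bounds k n L (by omega) hLn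
    exact h1 (co k) (ct k n L) (co_ne k) hb.1 hb.2 (adm k n L hk hdvd) (two k n L hk (by omega)) u Y hXY hYX hYu A hA

end Pool.Agent.Results.MP_1e9cc8_nt.UniformLaws
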